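import Pool.Agent.Run7.h757.MW.Stm

/-!
# Project MW (helper757), piece PAR (helper304): Parseval modulo `Q`
-/

set_option autoImplicit false

open Finset MeasureTheory Filter

namespace Pool.Agent.Run7.h304.MW

open Pool.Agent.Run7.h757.MW

theorem parseval {Q : ℕ} (hQ : 1 ≤ Q) {z : ℂ} (hz : IsPrimitiveRoot z Q) (c : ℕ → ℂ) (R : Finset ℕ)
    (hR : R ⊆ range Q) :
    ∑ M ∈ range Q, ‖∑ r ∈ R, c r * z ^ (M * r)‖ ^ 2 = (Q : ℝ) * ∑ r ∈ R, ‖c r‖ ^ 2 := by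
  have hQ0 : Q ≠ 0 := by omega
  have hn : ‖z‖ = 1 := hz.norm'_eq_one hQ0
  have hz0 : z ≠ 0 := hz.ne_zero hQ0
  have hconj : (starRingEnd ℂ) z = z⁻¹ := by
    rw [Complex.inv_def, Complex.normSq_eq_norm_sq, hn]; simp
  have horth : ∀ r ∈ R, ∀ s ∈ R, ∑ M ∈ range Q, (z ^ r * (z⁻¹) ^ s) ^ M = if r = s then (Q : ℂ) else 0 := by
    intro r hr s hs
    have hr' := mem_range.1 (hR hr)
    have hs' := mem_range.1 (hR hs)
    split_ifs with h
    · subst h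
      have h1 : z ^ r * (z⁻¹) ^ r = 1 := by rw [← mul_pow, mul_inv_cancel₀ hz0, one_pow]
      simp only [h1, one_pow, sum_const, card_range, nsmul_eq_mul, mul_one]
    · have h1 : z ^ r * (z⁻¹) ^ s ≠ 1 := by
        intro h2
        apply h
        apply hz.pow_inj hr' hs'
        rw [inv_pow] at h2
        exact (mul_inv_eq_one₀ (pow_ne_zero _ hz0)).1 h2
      have h2 : (z ^ r * (z⁻¹) ^ s) ^ Q = 1 := by
        rw [mul_pow, ← pow_mul, ← pow_mul, mul_comm r, mul_comm s, pow_mul, pow_mul, hz.pow_eq_one, one_pow,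
          inv_pow, hz.pow_eq_one, inv_one, one_pow, one_mul]
      rw [geom_sum_eq h1, h2, sub_self, zero_div]
  have key : ((∑ M ∈ range Q, ‖∑ r ∈ R, c r * z ^ (M * r)‖ ^ 2 : ℝ) : ℂ) =
      (((Q : ℝ) * ∑ r ∈ R, ‖c r‖ ^ 2 : ℝ) : ℂ) := by
    push_cast
    have h1 : ∀ M : ℕ, (‖∑ r ∈ R, c r * z ^ (M * r)‖ : ℂ) ^ 2 =
        ∑ r ∈ R, ∑ s ∈ R, c r * (starRingEnd ℂ) (c s) * (z ^ r * (z⁻¹) ^ s) ^ M := by
      intro M
      rw [← Complex.mul_conj', map_sum, sum_mul_sum]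
      refine sum_congr rfl fun r _ => sum_congr rfl fun s _ => ?_
      rw [map_mul, map_pow, hconj, mul_pow, ← pow_mul, ← pow_mul, mul_comm r M, mul_comm s M]
      ring
    simp_rw [h1]
    rw [sum_comm]
    have h2 : ∀ r ∈ R, ∑ M ∈ range Q, ∑ s ∈ R, c r * (starRingEnd ℂ) (c s) * (z ^ r * (z⁻¹) ^ s) ^ M =
        (Q : ℂ) * (‖c r‖ : ℂ) ^ 2 := by
      intro r hr
      rw [sum_comm]
      have h3 : ∀ s ∈ R, ∑ M ∈ range Q, c r * (starRingEnd ℂ) (c s) * (z ^ r * (z⁻¹) ^ s) ^ M =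
          if r = s then c r * (starRingEnd ℂ) (c s) * (Q : ℂ) else 0 := by
        intro s hs
        rw [← mul_sum, horth r hr s hs]
        split_ifs <;> simp
      rw [sum_congr rfl h3, sum_ite_eq, if_pos hr, Complex.mul_conj']
      ring
    rw [sum_congr rfl h2, mul_sum]
  exact_mod_cast key

theorem e_rep (Q M r : ℕ) (hQ : 1 ≤ Q) :
    e (M * rep Q r) = (Complex.exp (2 * Real.pi * Complex.I / Q)) ^ (M * r) := by
  have hQ0 : (Q : ℂ) ≠ 0 := by exact_mod_cast (by omega : Q ≠ 0)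
  unfold e rep
  split_ifs with h
  · rw [← Complex.exp_nat_mul]
    congr 1
    push_cast
    field_simp
  · rw [← Complex.exp_nat_mul]
    have h1 : (2 * Real.pi * ((M * ((r : ℝ) / Q - 1) : ℝ) : ℂ) * Complex.I) =
        ((M * r : ℕ) : ℂ) * (2 * Real.pi * Complex.I / Q) - (M : ℕ) * (2 * Real.pi * Complex.I) := by
      push_cast
      field_simp
    rw [h1, Complex.exp_sub, Complex.exp_nat_mul_two_pi_mul_I, div_one]

theorem e_neg (x : ℝ) : e (-x) = (e x)⁻¹ := by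
  unfold e
  rw [← Complex.exp_neg]
  congr 1
  push_cast
  ring

/-- Parseval modulo `Q` -/
theorem PAR : S_PAR := by
  intro Q hQ
  have hQ0 : Q ≠ 0 := by omega
  have hQr : (0 : ℝ) < Q := by exact_mod_cast (by omega : 0 < Q)
  have hz := Complex.isPrimitiveRoot_exp Q hQ0
  refine ⟨fun g R hR => ?_, fun W hW => ?_⟩
  · have h1 := parseval hQ hz.inv (fun r => 1 / (Q : ℂ) * g r) R hR
    have h2 : ∀ M ∈ range Q, ‖1 / (Q : ℂ) * ∑ r ∈ R, g r * e (-(M * rep Q r))‖ ^ 2 =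
        ‖∑ r ∈ R, 1 / (Q : ℂ) * g r * ((Complex.exp (2 * Real.pi * Complex.I / Q))⁻¹) ^ (M * r)‖ ^ 2 := by
      intro M _
      congr 2
      rw [mul_sum]
      refine sum_congr rfl fun r _ => ?_
      rw [e_neg, e_rep Q M r hQ, inv_pow]
      ring
    rw [sum_congr rfl h2, h1]
    have h3 : ∀ r ∈ R, ‖1 / (Q : ℂ) * g r‖ ^ 2 = (1 / (Q : ℝ)) ^ 2 * ‖g r‖ ^ 2 := by
      intro r _
      rw [norm_mul, mul_pow, norm_div, norm_one, Complex.norm_natCast]
    rw [sum_congr rfl h3, ← mul_sum]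
    field_simp
  · have h1 := parseval hQ hz (fun _ => 1) W hW
    have h2 : ∀ r ∈ range Q, ‖∑ a ∈ W, e (a * rep Q r)‖ ^ 2 =
        ‖∑ a ∈ W, (1 : ℂ) * (Complex.exp (2 * Real.pi * Complex.I / Q)) ^ (r * a)‖ ^ 2 := by
      intro r _
      congr 2
      refine sum_congr rfl fun a _ => ?_
      rw [e_rep Q a r hQ, one_mul, mul_comm a r]
    rw [sum_congr rfl h2, h1]
    simp

end Pool.Agent.Run7.h304.MW

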