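import Pool.Agent.Run7.h757.MW.Stm

/-!
# Project MW (helper757), piece AE (helper304): Tonelli, Markov, Borel-Cantelli
-/

set_option autoImplicit false

open Finset MeasureTheory Filter
open scoped ENNReal

namespace Pool.Agent.Run7.h304.MW

open Pool.Agent.Run7.h757.MW

theorem lint_fin_prod {n : ℕ} (μ : Fin n → Measure ℝ)
    [∀ i, SigmaFinite (μ i)] (f : Fin n → ℝ → ℝ≥0∞) (hf : ∀ i, Measurable (f i)) :
    ∫⁻ x : Fin n → ℝ, ∏ i, f i (x i) ∂(Measure.pi μ) = ∏ i, ∫⁻ x, f i x ∂(μ i) := by
  induction n with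
  | zero => simp
  | succ n n_ih =>
      calc
        _ = ∫⁻ x : ℝ × (Fin n → ℝ),
            f 0 x.1 * ∏ i : Fin n, f (Fin.succ i) (x.2 i)
            ∂((μ 0).prod (Measure.pi (fun i ↦ μ i.succ))) := by
          rw [← ((measurePreserving_piFinSuccAbove μ 0).symm).lintegral_comp_emb
            (MeasurableEquiv.measurableEmbedding _)]
          simp_rw [MeasurableEquiv.piFinSuccAbove_symm_apply, Fin.insertNthEquiv,
            Fin.prod_univ_succ, Fin.insertNth_zero, Equiv.coe_fn_mk, Fin.cons_succ,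
            Fin.zero_succAbove, cast_eq, Fin.cons_zero]
        _ = (∫⁻ x, f 0 x ∂μ 0)
            * ∏ i : Fin n, ∫⁻ (x : ℝ), f (Fin.succ i) x ∂(μ i.succ) := by
          rw [← n_ih (fun i => μ i.succ) (fun i => f i.succ) (fun i => hf _)]
          exact lintegral_prod_mul (hf 0).aemeasurable (Finset.measurable_prod _ (fun i _ =>
            (hf _).comp (measurable_pi_apply i))).aemeasurable
        _ = ∏ i, ∫⁻ x, f i x ∂(μ i) := by rw [Fin.prod_univ_succ]

theorem e_norm (x : ℝ) : ‖e x‖ = 1 := by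
  unfold e
  rw [show (2 * Real.pi * x * Complex.I : ℂ) = ((2 * Real.pi * x : ℝ) : ℂ) * Complex.I by push_cast; ring,
    Complex.norm_exp_ofReal_mul_I]

theorem e_meas : Measurable e := by
  unfold e
  exact (by fun_prop : Continuous fun x : ℝ => Complex.exp (2 * Real.pi * x * Complex.I)).measurable

theorem T_meas (f : ℕ → ℕ) (B : Finset ℕ) (a : ℝ) : Measurable fun lam => T f B lam a := by
  unfold T
  refine Finset.measurable_fun_sum _ fun n _ => e_meas.comp ?_
  refine measurable_const.mul ?_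
  unfold fl
  have h1 : Measurable fun lam : ℝ => ⌊lam * (f n : ℝ)⌋₊ := Nat.measurable_floor.comp (measurable_id.mul_const _)
  exact (measurable_from_top (f := fun k : ℕ => (k : ℝ))).comp h1

theorem T_bd (f : ℕ → ℕ) (B : Finset ℕ) (lam a : ℝ) : ‖T f B lam a‖ ≤ B.card := by
  unfold T
  refine (norm_sum_le _ _).trans ?_
  simp [e_norm]

theorem lint_T (f : ℕ → ℕ) (B : Finset ℕ) (a : ℝ) (A p : ℕ) :
    ∫⁻ lam in Set.Icc (0 : ℝ) A, ENNReal.ofReal (‖T f B lam a‖ ^ p) =
      ENNReal.ofReal (∫ lam in (0 : ℝ)..A, ‖T f B lam a‖ ^ p) := by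
  rw [intervalIntegral.integral_of_le (Nat.cast_nonneg A), ← integral_Icc_eq_integral_Ioc,
    ofReal_integral_eq_lintegral_ofReal]
  · have h1 : Measurable fun lam => ‖T f B lam a‖ ^ p := (T_meas f B a).norm.pow_const p
    refine Integrable.of_bound h1.aestronglyMeasurable ((B.card : ℝ) ^ p) (ae_of_all _ fun lam => ?_)
    rw [Real.norm_of_nonneg (by positivity)]
    exact pow_le_pow_left₀ (norm_nonneg _) (T_bd f B lam a) p
  · exact ae_of_all _ fun lam => by positivity

/-- Tonelli, Markov, Borel-Cantelli -/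
theorem AE : S_AE := by
  intro u A p f B R w b v hw hv hev
  have hbox : (volume : Measure (Fin u → ℝ)).restrict (Box u A) =
      Measure.pi fun _ : Fin u => (volume : Measure ℝ).restrict (Set.Icc (0 : ℝ) A) := by
    unfold Box
    rw [volume_pi, Measure.restrict_pi_pi]
  have hms : MeasurableSet (Box u A) := MeasurableSet.univ_pi fun _ => measurableSet_Icc
  rw [← ae_restrict_iff' hms, hbox]
  set μ : Measure (Fin u → ℝ) := Measure.pi fun _ : Fin u => (volume : Measure ℝ).restrict (Set.Icc (0 : ℝ) A) with hμ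
  set X : ℕ → (Fin u → ℝ) → ℝ := fun j x => ∑ r ∈ R j, w j r * ∏ i, ‖T (f i) (B j i) (x i) (b j r)‖ ^ p with hX
  have hXm : ∀ j, Measurable (X j) := by
    intro j
    refine Finset.measurable_fun_sum _ fun r _ => measurable_const.mul ?_
    refine Finset.measurable_fun_prod _ fun i _ => ?_
    exact ((T_meas (f i) (B j i) (b j r)).comp (measurable_pi_apply i)).norm.pow_const p
  -- the integral
  have hint : ∀ j, ∫⁻ x, ENNReal.ofReal (X j x) ∂μ = ENNReal.ofReal (∑ r ∈ R j, w j r *
      ∏ i, ∫ lam in (0 : ℝ)..A, ‖T (f i) (B j i) lam (b j r)‖ ^ p) := by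
    intro j
    have h1 : ∀ x, ENNReal.ofReal (X j x) = ∑ r ∈ R j, ENNReal.ofReal (w j r) *
        ∏ i, ENNReal.ofReal (‖T (f i) (B j i) (x i) (b j r)‖ ^ p) := by
      intro x
      rw [hX]
      show ENNReal.ofReal (∑ r ∈ R j, _) = _
      rw [ENNReal.ofReal_sum_of_nonneg fun r _ => mul_nonneg (hw j r) (prod_nonneg fun i _ => by positivity)]
      refine sum_congr rfl fun r _ => ?_
      rw [ENNReal.ofReal_mul (hw j r), ENNReal.ofReal_prod_of_nonneg fun i _ => by positivity]
    have hm : ∀ r ∈ R j, Measurable fun x : Fin u → ℝ => ENNReal.ofReal (w j r) *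
        ∏ i, ENNReal.ofReal (‖T (f i) (B j i) (x i) (b j r)‖ ^ p) := by
      intro r _
      refine measurable_const.mul (Finset.measurable_fun_prod _ fun i _ => ?_)
      exact (((T_meas (f i) (B j i) (b j r)).comp (measurable_pi_apply i)).norm.pow_const p).ennreal_ofReal
    simp_rw [h1]
    rw [lintegral_finsetSum _ hm]
    rw [ENNReal.ofReal_sum_of_nonneg fun r _ => mul_nonneg (hw j r) (prod_nonneg fun i _ =>
      intervalIntegral.integral_nonneg (Nat.cast_nonneg A) fun lam _ => by positivity)]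
    refine sum_congr rfl fun r _ => ?_
    rw [lintegral_const_mul, ENNReal.ofReal_mul (hw j r), ENNReal.ofReal_prod_of_nonneg fun i _ =>
      intervalIntegral.integral_nonneg (Nat.cast_nonneg A) fun lam _ => by positivity]
    · congr 1
      rw [hμ, lint_fin_prod (fun _ : Fin u => (volume : Measure ℝ).restrict (Set.Icc (0 : ℝ) A))
        (fun i lam => ENNReal.ofReal (‖T (f i) (B j i) lam (b j r)‖ ^ p))
        (fun i => ((T_meas (f i) (B j i) (b j r)).norm.pow_const p).ennreal_ofReal)]
      exact prod_congr rfl fun i _ => lint_T (f i) (B j i) (b j r) A p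
    · refine Finset.measurable_fun_prod _ fun i _ => ?_
      exact (((T_meas (f i) (B j i) (b j r)).comp (measurable_pi_apply i)).norm.pow_const p).ennreal_ofReal
  obtain ⟨j0, hj0⟩ := eventually_atTop.1 hev
  -- Markov
  have hmark : ∀ j ≥ j0, μ {x | v j < X j x} ≤ ENNReal.ofReal (1 / ((j : ℝ) + 1) ^ 2) := by
    intro j hj
    have h1 : μ {x | ENNReal.ofReal (v j) ≤ ENNReal.ofReal (X j x)} ≤
        (∫⁻ x, ENNReal.ofReal (X j x) ∂μ) / ENNReal.ofReal (v j) :=
      meas_ge_le_lintegral_div (hXm j).ennreal_ofReal.aemeasurable (by simpa using hv j) ENNReal.ofReal_ne_top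
    have h2 : μ {x | v j < X j x} ≤ μ {x | ENNReal.ofReal (v j) ≤ ENNReal.ofReal (X j x)} :=
      measure_mono fun x hx => ENNReal.ofReal_le_ofReal (le_of_lt hx)
    refine (h2.trans h1).trans ?_
    rw [hint j]
    calc ENNReal.ofReal _ / ENNReal.ofReal (v j) ≤ ENNReal.ofReal (v j / ((j : ℝ) + 1) ^ 2) / ENNReal.ofReal (v j) :=
          ENNReal.div_le_div_right (ENNReal.ofReal_le_ofReal (hj0 j hj)) _
      _ = ENNReal.ofReal (v j / ((j : ℝ) + 1) ^ 2 / v j) := (ENNReal.ofReal_div_of_pos (hv j)).symm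
      _ = ENNReal.ofReal (1 / ((j : ℝ) + 1) ^ 2) := by
          congr 1
          have := (hv j).ne'
          field_simp
  -- Borel-Cantelli
  set s : ℕ → Set (Fin u → ℝ) := fun j => if j0 ≤ j then {x | v j < X j x} else ∅ with hs
  have hsum : ∑' j, μ (s j) ≠ ∞ := by
    have h1 : ∀ j, μ (s j) ≤ ENNReal.ofReal (1 / ((j : ℝ) + 1) ^ 2) := by
      intro j
      rw [hs]
      show μ (if j0 ≤ j then {x | v j < X j x} else ∅) ≤ _
      split_ifs with hj
      · exact hmark j hj
      · simp
    have h2 : Summable fun j : ℕ => 1 / ((j : ℝ) + 1) ^ 2 := by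
      have h3 := (Real.summable_one_div_nat_pow (p := 2)).2 (by norm_num)
      have h4 := (summable_nat_add_iff 1).2 h3
      refine h4.congr fun j => ?_
      push_cast
      rfl
    refine ne_top_of_le_ne_top ?_ (ENNReal.tsum_le_tsum h1)
    exact h2.tsum_ofReal_ne_top
  filter_upwards [ae_eventually_notMem hsum] with x hx
  filter_upwards [hx, eventually_ge_atTop j0] with j hj1 hj2
  rw [hs] at hj1
  have h3 : x ∉ {x | v j < X j x} := by
    have : (if j0 ≤ j then {x | v j < X j x} else ∅) = {x | v j < X j x} := if_pos hj2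
    rw [← this]
    exact hj1
  exact not_lt.1 h3

end Pool.Agent.Run7.h304.MW

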